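import Pool.Agent.H27.L1.H16.GHK.PH4
import Pool.Agent.H27.L1.H14.GHK.PWR
import Pool.Agent.H27.L1.H40.GHK.FUB

/-!
Row JKF of the page ghk: the oscillating integral near the identity.
-/

set_option autoImplicit false

namespace Pool.Agent.H27.L1.H16.GHK

open MeasureTheory Matrix Pool.Agent.H27.L1.H34.GM Pool.Agent.H27.L1.H40.GHK Pool.Agent.H27.L1.H14.GHK

/-- the oscillating integral near the identity, general exponents -/
def T_JKB : Prop := ∀ m : ℕ, 1 ≤ m → ∃ r : ℝ, 0 < r ∧ r ≤ 1 / (4 * m) ∧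
  ∀ (A : ℕ) (B : ℝ), 0 ≤ B → ∃ C : ℝ, 0 < C ∧ ∀ c : ℕ → ℂ, (∀ j, j < m → |(c j).re| ≤ B) →
  (∀ j, j + 1 < m → 0 ≤ (c j).im) → ∀ w w' : Mat m, w.det ≠ 0 → w'.det ≠ 0 →
    ‖∫ Y in {Y : V m | fsq Y < r ^ 2}, (((1 - fsq Y / r ^ 2) ^ A : ℝ) : ℂ) *
      Complex.exp (∑ j ∈ Finset.range m,
        (c j * ((Real.log (Dp w ((1 + mt Y).transpose * (1 + mt Y)) (j + 1)) : ℝ) : ℂ) +
          (starRingEnd ℂ) (c j) *
            ((Real.log (Dp w' ((1 + mt Y).transpose * (1 + mt Y)) (j + 1)) : ℝ) : ℂ)))‖ ≤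
      C * ((1 + Real.sqrt (fsq (∑ j ∈ Finset.range (m - 1),
        (c j).im • (Ep w (j + 1) - Ep w' (j + 1))))) ^ A)⁻¹

lemma fsq_line {m : ℕ} (Y0 : V m) (a b : Fin m) (h0 : Y0 a b = 0) (s : ℝ) :
    fsq (Y0 + s • Pool.Agent.H27.L1.H40.GHK.eab a b) = fsq Y0 + s ^ 2 := by
  unfold fsq
  have h1 : ∀ i j, (Y0 + s • Pool.Agent.H27.L1.H40.GHK.eab a b) i j ^ 2 =
      Y0 i j ^ 2 + (if i = a then (if j = b then s ^ 2 else 0) else 0) := by
    intro i j
    rw [Pi.add_apply, Pi.add_apply, Pi.smul_apply, Pi.smul_apply, smul_eq_mul]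
    unfold Pool.Agent.H27.L1.H40.GHK.eab
    by_cases hi : i = a
    · by_cases hj : j = b
      · rw [hi, hj, h0]
        simp
      · simp [hi, hj]
    · simp [hi]
  simp only [h1, Finset.sum_add_distrib]
  congr 1
  rw [Finset.sum_eq_single a]
  · rw [Finset.sum_eq_single b]
    · simp
    · intro j _ hj
      simp [hj]
    · intro h; exact absurd (Finset.mem_univ _) h
  · intro i _ hi
    refine Finset.sum_eq_zero fun j _ => ?_
    simp [hi]
  · intro h; exact absurd (Finset.mem_univ _) h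

lemma mat_line {m : ℕ} (Y0 : V m) (a b : Fin m) (s : ℝ) :
    1 + mt (Y0 + s • Pool.Agent.H27.L1.H40.GHK.eab a b) =
      (1 + mt Y0) + s • Pool.Agent.H27.L1.H16.GHK.eab a b := by
  ext i j
  simp only [Matrix.add_apply, Matrix.smul_apply, Matrix.of_apply, Pi.add_apply, Pi.smul_apply,
    smul_eq_mul, Pool.Agent.H27.L1.H40.GHK.eab, Pool.Agent.H27.L1.H16.GHK.eab]
  ring

lemma Dp_line {m : ℕ} {w : Mat m} (hw : w.det ≠ 0) {j : ℕ} (h : j ≤ m) (S : Mat m) :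
    Dp w S j = (1 + Ep w j * (S - 1) * Ep w j).det := by
  unfold Dp
  congr 1
  rw [Matrix.mul_sub, Matrix.sub_mul, Matrix.mul_one, Ep_idem hw h]
  abel

/-- the inequality between the gradient and the flags -/
lemma flags_le {m : ℕ} {w w' : Mat m} (hw : w.det ≠ 0) (hw' : w'.det ≠ 0) (bt : ℕ → ℝ)
    (hbt : ∀ j, 0 ≤ bt j) (j : ℕ) (hj : j < m) :
    bt j * Real.sqrt (fsq (Ep w (j + 1) - Ep w' (j + 1))) ≤
      Real.sqrt (fsq (∑ i ∈ Finset.range m, bt i • (Ep w (i + 1) - Ep w' (i + 1)))) := by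
  have hflg : ∀ v : Mat m, v.det ≠ 0 → Flg (fun i : Fin m => Ep v ((i : ℕ) + 1)) := by
    intro v hv
    refine ⟨fun i => ⟨Ep_symm v _, Ep_idem hv i.2⟩, fun i l hil => ?_⟩
    exact Ep_nest hv (Nat.succ_le_succ hil) l.2
  have h1 := grd_pos (hflg w hw) (hflg w' hw') Finset.univ (fun i : Fin m => bt i)
    (fun i _ => hbt i)
  have h2 : ∑ i : Fin m, bt i • (Ep w ((i : ℕ) + 1) - Ep w' ((i : ℕ) + 1)) =
      ∑ i ∈ Finset.range m, bt i • (Ep w (i + 1) - Ep w' (i + 1)) :=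
    Fin.sum_univ_eq_sum_range (fun i => bt i • (Ep w (i + 1) - Ep w' (i + 1))) m
  rw [h2] at h1
  refine Real.le_sqrt_of_sq_le ?_
  rw [mul_pow, Real.sq_sqrt (fsq_nonneg _)]
  refine le_trans ?_ h1
  exact Finset.single_le_sum
    (f := fun i : Fin m => bt i ^ 2 * fsq (Ep w ((i : ℕ) + 1) - Ep w' ((i : ℕ) + 1)))
    (fun i _ => mul_nonneg (sq_nonneg _) (fsq_nonneg _)) (Finset.mem_univ (⟨j, hj⟩ : Fin m))

/-- a large entry -/
lemma big_entry {m : ℕ} (hm : 1 ≤ m) (D : Mat m) : ∃ a b : Fin m,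
    Real.sqrt (fsq D) ≤ m * |D a b| := by
  have hne : (Finset.univ : Finset (Fin m × Fin m)).Nonempty :=
    ⟨(⟨0, hm⟩, ⟨0, hm⟩), Finset.mem_univ _⟩
  obtain ⟨⟨a, b⟩, -, hab⟩ := Finset.exists_max_image Finset.univ
    (fun p : Fin m × Fin m => |D p.1 p.2|) hne
  refine ⟨a, b, ?_⟩
  rw [Real.sqrt_le_left (by positivity)]
  have h1 : fsq D ≤ ∑ _i : Fin m, ∑ _j : Fin m, |D a b| ^ 2 := by
    unfold fsq
    refine Finset.sum_le_sum fun i _ => Finset.sum_le_sum fun j _ => ?_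
    rw [← sq_abs]
    exact pow_le_pow_left₀ (abs_nonneg _) (hab (i, j) (Finset.mem_univ _)) 2
  refine h1.trans (le_of_eq ?_)
  simp only [Finset.sum_const, Finset.card_univ, Fintype.card_fin, nsmul_eq_mul]
  ring

/-- JKB -/
theorem pf_JKB : T_JKB := by
  intro m hm
  obtain ⟨r0, C0, hr0, hC0, hphs⟩ := phs m
  have hm1 : (1 : ℝ) ≤ m := by exact_mod_cast hm
  have hm0 : (0 : ℝ) < m := by linarith
  obtain ⟨r, hrdef⟩ : ∃ r : ℝ, r = min r0 (min (1 / (4 * m)) (1 / (2 * C0 * m * m))) := ⟨_, rfl⟩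
  have hr : 0 < r := by
    rw [hrdef]
    refine lt_min hr0 (lt_min ?_ ?_) <;> positivity
  have hrr0 : r ≤ r0 := by rw [hrdef]; exact min_le_left _ _
  have hr4 : r ≤ 1 / (4 * m) := by
    rw [hrdef]; exact (min_le_right _ _).trans (min_le_left _ _)
  have hrC : C0 * r * m * m ≤ 1 / 2 := by
    have h1 : r ≤ 1 / (2 * C0 * m * m) := by
      rw [hrdef]; exact (min_le_right _ _).trans (min_le_right _ _)
    rw [le_div_iff₀ (by positivity)] at h1
    nlinarith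
  have hr1 : r ≤ 1 := hr4.trans (by
    rw [div_le_one (by positivity)]
    linarith)
  refine ⟨r, hr, hr4, ?_⟩
  intro A B hB
  obtain ⟨CL, hCL, hsl⟩ := slice (m := m) A
  have hslice := hsl C0 r B hr hr1 hC0 hB hrC (hphs r hr hrr0)
  refine ⟨((r ^ 2) ^ A)⁻¹ * (CL * Real.exp (2 * m * B)) * (m : ℝ) ^ A * (2 * r) ^ (m * m - 1),
    by positivity, ?_⟩
  intro c hcB hcim w w' hw hw'
  obtain ⟨bt, hbt⟩ : ∃ bt : ℕ → ℝ, bt = fun j => if j + 1 < m then (c j).im else 0 := ⟨_, rfl⟩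
  have hbt0 : ∀ j, 0 ≤ bt j := by
    intro j
    rw [hbt]
    dsimp only
    split_ifs with h
    · exact hcim j h
    · exact le_rfl
  obtain ⟨D, hD⟩ : ∃ D : Mat m, D = ∑ j ∈ Finset.range m,
    bt j • (Ep w (j + 1) - Ep w' (j + 1)) := ⟨_, rfl⟩
  have hDD : ∑ j ∈ Finset.range (m - 1), (c j).im • (Ep w (j + 1) - Ep w' (j + 1)) = D := by
    obtain ⟨n, hn⟩ : ∃ n, m = n + 1 := ⟨m - 1, by omega⟩
    rw [hD]
    have h1 : m - 1 = n := by omega
    have h2 : Finset.range m = Finset.range (n + 1) := by rw [hn]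
    rw [h1, h2, Finset.sum_range_succ]
    have h3 : bt n = 0 := by
      rw [hbt]
      dsimp only
      rw [if_neg (by omega)]
    rw [h3, zero_smul, add_zero]
    refine Finset.sum_congr rfl fun j hj => ?_
    have hj' := Finset.mem_range.1 hj
    rw [hbt]
    dsimp only
    rw [if_pos (by omega)]
  rw [hDD]
  obtain ⟨a, b, hab⟩ := big_entry hm D
  obtain ⟨Mb, hMb⟩ : ∃ Mb : ℝ, Mb = ((r ^ 2) ^ A)⁻¹ *
    (CL * Real.exp (2 * m * B) * ((1 + 2 * |D a b|) ^ A)⁻¹) := ⟨_, rfl⟩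
  have hMb0 : 0 ≤ Mb := by
    rw [hMb]
    have := abs_nonneg (D a b)
    positivity
  have hfub := fub hr a b (fun Y : V m => (((1 - fsq Y / r ^ 2) ^ A : ℝ) : ℂ) *
      Complex.exp (∑ j ∈ Finset.range m,
        (c j * ((Real.log (Dp w ((1 + mt Y).transpose * (1 + mt Y)) (j + 1)) : ℝ) : ℂ) +
          (starRingEnd ℂ) (c j) *
            ((Real.log (Dp w' ((1 + mt Y).transpose * (1 + mt Y)) (j + 1)) : ℝ) : ℂ))))
      Mb hMb0 ?_
  · refine hfub.trans ?_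
    have h1 : ((1 + 2 * |D a b|) ^ A)⁻¹ ≤ (m : ℝ) ^ A * ((1 + Real.sqrt (fsq D)) ^ A)⁻¹ := by
      have h2 : (1 + Real.sqrt (fsq D)) ≤ m * (1 + 2 * |D a b|) := by
        have := abs_nonneg (D a b)
        nlinarith
      have h3 : (1 + Real.sqrt (fsq D)) ^ A ≤ (m : ℝ) ^ A * (1 + 2 * |D a b|) ^ A := by
        rw [← mul_pow]
        exact pow_le_pow_left₀ (by positivity) h2 A
      have h4 : 0 < (1 + 2 * |D a b|) ^ A := by positivity
      have h5 : 0 < (1 + Real.sqrt (fsq D)) ^ A := by positivity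
      rw [← div_eq_mul_inv, le_div_iff₀ h5, inv_mul_le_iff₀ h4]
      linarith
    rw [hMb]
    have hpos : 0 ≤ ((r ^ 2) ^ A)⁻¹ * (CL * Real.exp (2 * m * B)) * (2 * r) ^ (m * m - 1) := by
      positivity
    calc ((r ^ 2) ^ A)⁻¹ * (CL * Real.exp (2 * m * B) * ((1 + 2 * |D a b|) ^ A)⁻¹) *
          (2 * r) ^ (m * m - 1)
        = (((r ^ 2) ^ A)⁻¹ * (CL * Real.exp (2 * m * B)) * (2 * r) ^ (m * m - 1)) *
          ((1 + 2 * |D a b|) ^ A)⁻¹ := by ring
      _ ≤ (((r ^ 2) ^ A)⁻¹ * (CL * Real.exp (2 * m * B)) * (2 * r) ^ (m * m - 1)) *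
          ((m : ℝ) ^ A * ((1 + Real.sqrt (fsq D)) ^ A)⁻¹) :=
          mul_le_mul_of_nonneg_left h1 hpos
      _ = _ := by ring
  · intro Y0 hY0 hY1
    obtain ⟨sg, hsg⟩ : ∃ sg : ℝ, sg = Real.sqrt (r ^ 2 - fsq Y0) := ⟨_, rfl⟩
    have hsg0 : 0 < sg := by
      rw [hsg]
      exact Real.sqrt_pos.2 (by linarith)
    have hsg2 : sg ^ 2 = r ^ 2 - fsq Y0 := by
      rw [hsg]
      exact Real.sq_sqrt (by linarith)
    have hsgr : sg ≤ r := by
      rw [hsg, Real.sqrt_le_left hr.le]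
      have := fsq_nonneg (Y0 : Mat m)
      linarith
    rw [← hsg]
    have hz : fsq ((1 + mt Y0) - 1) ≤ r ^ 2 := by
      have h1 : (1 + mt Y0) - 1 = mt Y0 := by abel
      rw [h1]
      exact hY1.le
    have hmain := hslice (fun j => Ep w (j + 1)) (fun j => Ep w' (j + 1)) c bt
      (fun j hj => ⟨Ep_symm w _, Ep_idem hw hj⟩) (fun j hj => ⟨Ep_symm w' _, Ep_idem hw' hj⟩)
      hcB (fun j hj => ?_) hbt0 D hD (fun j hj => ?_) a b hab (1 + mt Y0) hz sg hsg0 hsgr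
    · rw [hMb]
      have hint : (∫ s in (-sg)..sg, (((1 - fsq (Y0 + s • Pool.Agent.H27.L1.H40.GHK.eab a b) /
          r ^ 2) ^ A : ℝ) : ℂ) * Complex.exp (∑ j ∈ Finset.range m,
        (c j * ((Real.log (Dp w ((1 + mt (Y0 + s • Pool.Agent.H27.L1.H40.GHK.eab a b)).transpose *
          (1 + mt (Y0 + s • Pool.Agent.H27.L1.H40.GHK.eab a b))) (j + 1)) : ℝ) : ℂ) +
          (starRingEnd ℂ) (c j) *
            ((Real.log (Dp w' ((1 + mt (Y0 + s • Pool.Agent.H27.L1.H40.GHK.eab a b)).transpose *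
              (1 + mt (Y0 + s • Pool.Agent.H27.L1.H40.GHK.eab a b))) (j + 1)) : ℝ) : ℂ)))) =
          ∫ s in (-sg)..sg, ((((r ^ 2) ^ A)⁻¹ : ℝ) : ℂ) *
            (((sg : ℂ) ^ 2 - (s : ℂ) ^ 2) ^ A * Complex.exp (∑ j ∈ Finset.range m,
            (c j * Complex.log (us (Ep w (j + 1)) (1 + mt Y0) a b s) +
              (starRingEnd ℂ) (c j) * Complex.log (us (Ep w' (j + 1)) (1 + mt Y0) a b s)))) := by
        refine intervalIntegral.integral_congr fun s hs => ?_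
        have hs' : |s| ≤ sg := by
          rw [Set.uIcc_of_le (by linarith)] at hs
          exact abs_le.2 hs
        have hsn : ‖(s : ℂ)‖ ≤ 2 * r := by
          rw [Complex.norm_real, Real.norm_eq_abs]
          linarith
        have hnear : ∀ F, Prj F → ‖us F (1 + mt Y0) a b (s : ℂ) - 1‖ ≤ 1 / 2 := fun F hF =>
          ((hphs r hr hrr0 (1 + mt Y0) hz a b s hsn).1 F hF).1
        show (((1 - fsq (Y0 + s • Pool.Agent.H27.L1.H40.GHK.eab a b) /
          r ^ 2) ^ A : ℝ) : ℂ) * _ = _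
        rw [fsq_line Y0 a b hY0 s, mat_line]
        have e1 : (((1 - (fsq Y0 + s ^ 2) / r ^ 2) ^ A : ℝ) : ℂ) =
            ((((r ^ 2) ^ A)⁻¹ : ℝ) : ℂ) * ((sg : ℂ) ^ 2 - (s : ℂ) ^ 2) ^ A := by
          have e2 : (1 - (fsq Y0 + s ^ 2) / r ^ 2) ^ A =
              ((r ^ 2) ^ A)⁻¹ * (sg ^ 2 - s ^ 2) ^ A := by
            rw [hsg2, ← inv_pow, ← mul_pow]
            congr 1
            field_simp
            ring
          rw [e2]
          push_cast
          ring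
        rw [e1, mul_assoc]
        congr 3
        refine Finset.sum_congr rfl fun j hj => ?_
        have hjm : j < m := Finset.mem_range.1 hj
        rw [(us_log_real (Ep w (j + 1)) (1 + mt Y0) a b s
            (hnear _ ⟨Ep_symm w _, Ep_idem hw hjm⟩)).2,
          (us_log_real (Ep w' (j + 1)) (1 + mt Y0) a b s
            (hnear _ ⟨Ep_symm w' _, Ep_idem hw' hjm⟩)).2,
          Dp_line hw hjm, Dp_line hw' hjm]
      rw [hint, intervalIntegral.integral_const_mul, norm_mul, Complex.norm_real,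
        Real.norm_eq_abs, abs_of_nonneg (by positivity)]
      exact mul_le_mul_of_nonneg_left hmain (by positivity)
    · by_cases h : j + 1 < m
      · left
        rw [hbt]
        dsimp only
        rw [if_pos h]
      · right
        have h2 : j + 1 = m := by omega
        show Ep w (j + 1) = Ep w' (j + 1)
        rw [h2, Ep_full hw, Ep_full hw']
    · have h1 := flags_le hw hw' bt hbt0 j hj
      rw [← hD] at h1
      exact h1

end Pool.Agent.H27.L1.H16.GHK
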