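import Pool.Agent.H27.L1.H40.GHK.GRD

/-!
Rows PHS and MNU of the page ghk, part 1: estimates in a normed ring; the derivative of a
determinant at the identity.
-/

set_option autoImplicit false

namespace Pool.Agent.H27.L1.H16.GHK

open Matrix

section Ring

variable {R : Type*} [NormedRing R]

lemma rg_tri (x y z : R) : ‖x * y * z‖ ≤ ‖x‖ * ‖y‖ * ‖z‖ :=
  (norm_mul_le _ _).trans (mul_le_mul_of_nonneg_right (norm_mul_le _ _) (norm_nonneg _))

/-- the difference of two sandwiches -/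
lemma rg_sand {E E' W : R} {κ ρ : ℝ} (hE : ‖E‖ ≤ κ) (hE' : ‖E'‖ ≤ κ) (hW : ‖W‖ ≤ ρ) :
    ‖E * W * E - E' * W * E'‖ ≤ 2 * κ * ρ * ‖E - E'‖ := by
  have h0 : E * W * E - E' * W * E' = (E - E') * W * E + E' * W * (E - E') := by noncomm_ring
  have hκ : 0 ≤ κ := (norm_nonneg _).trans hE
  have hρ : 0 ≤ ρ := (norm_nonneg _).trans hW
  rw [h0]
  have h1 : ‖(E - E') * W * E‖ ≤ ‖E - E'‖ * ρ * κ := (rg_tri _ _ _).trans (by gcongr)
  have h2 : ‖E' * W * (E - E')‖ ≤ κ * ρ * ‖E - E'‖ := (rg_tri _ _ _).trans (by gcongr)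
  calc _ ≤ _ := norm_add_le _ _
    _ ≤ ‖E - E'‖ * ρ * κ + κ * ρ * ‖E - E'‖ := add_le_add h1 h2
    _ = _ := by ring

/-- the norm of the inverse of `1 + A` -/
lemma rg_inv {A N : R} {κ : ℝ} (h1 : ‖(1 : R)‖ ≤ κ) (hA : ‖A‖ ≤ 1 / 2) (hN : N * (1 + A) = 1) :
    ‖N‖ ≤ 2 * κ := by
  have h0 : N = 1 - N * A := by
    rw [← hN]
    noncomm_ring
  have h2 : ‖N‖ ≤ κ + ‖N‖ * (1 / 2) := by
    calc ‖N‖ = ‖1 - N * A‖ := by rw [← h0]
      _ ≤ ‖(1 : R)‖ + ‖N * A‖ := norm_sub_le _ _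
      _ ≤ κ + ‖N‖ * (1 / 2) := by
          refine add_le_add h1 ((norm_mul_le _ _).trans ?_)
          gcongr
  linarith

/-- the difference of the second order terms -/
lemma rg_main {E E' W W' N N' : R} {κ ρ : ℝ} (hκ1 : 1 ≤ κ) (h1 : ‖(1 : R)‖ ≤ κ)
    (hE : ‖E‖ ≤ κ) (hE' : ‖E'‖ ≤ κ) (hW : ‖W‖ ≤ ρ) (hW' : ‖W'‖ ≤ 4) (hρ : κ * κ * ρ ≤ 1 / 2)
    (hN : N * (1 + E * W * E) = 1) (hN' : N' * (1 + E' * W * E') = 1)
    (hN'' : (1 + E' * W * E') * N' = 1) :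
    ‖N * (E * W * E) * (E * W' * E) - N' * (E' * W * E') * (E' * W' * E')‖ ≤
      48 * κ ^ 5 * ρ * ‖E - E'‖ := by
  have hκ : 0 ≤ κ := by linarith
  have hρ0 : 0 ≤ ρ := (norm_nonneg _).trans hW
  obtain ⟨A, hA⟩ : ∃ A : R, A = E * W * E := ⟨_, rfl⟩
  obtain ⟨A', hA'⟩ : ∃ A' : R, A' = E' * W * E' := ⟨_, rfl⟩
  obtain ⟨B, hB⟩ : ∃ B : R, B = E * W' * E := ⟨_, rfl⟩
  obtain ⟨B', hB'⟩ : ∃ B' : R, B' = E' * W' * E' := ⟨_, rfl⟩
  obtain ⟨d, hd⟩ : ∃ d : ℝ, d = ‖E - E'‖ := ⟨_, rfl⟩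
  have hd0 : 0 ≤ d := by rw [hd]; exact norm_nonneg _
  have hAA : ‖A - A'‖ ≤ 2 * κ * ρ * d := by
    rw [hA, hA', hd]; exact rg_sand hE hE' hW
  have hBB : ‖B - B'‖ ≤ 2 * κ * 4 * d := by
    rw [hB, hB', hd]; exact rg_sand hE hE' hW'
  have hAn0 : ‖A‖ ≤ κ * ρ * κ := by
    rw [hA]; exact (rg_tri _ _ _).trans (by gcongr)
  have hAn0' : ‖A'‖ ≤ κ * ρ * κ := by
    rw [hA']; exact (rg_tri _ _ _).trans (by gcongr)
  have hAn : ‖A‖ ≤ 1 / 2 := hAn0.trans (by linarith [mul_right_comm κ ρ κ])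
  have hAn' : ‖A'‖ ≤ 1 / 2 := hAn0'.trans (by linarith [mul_right_comm κ ρ κ])
  have hBn : ‖B‖ ≤ κ * 4 * κ := by
    rw [hB]; exact (rg_tri _ _ _).trans (by gcongr)
  rw [← hA] at hN
  rw [← hA'] at hN' hN''
  have hNn : ‖N‖ ≤ 2 * κ := rg_inv h1 hAn hN
  have hNn' : ‖N'‖ ≤ 2 * κ := rg_inv h1 hAn' hN'
  have hNN : ‖N - N'‖ ≤ (2 * κ) * (2 * κ * ρ * d) * (2 * κ) := by
    have h0 : N - N' = N * (A' - A) * N' := by
      calc N - N' = N * ((1 + A') * N') - (N * (1 + A)) * N' := by rw [hN'', hN, mul_one, one_mul]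
        _ = N * (A' - A) * N' := by noncomm_ring
    rw [h0]
    refine (rg_tri _ _ _).trans ?_
    rw [norm_sub_rev A' A]
    gcongr
  have h0 : N * A * B - N' * A' * B' =
      (N - N') * A * B + N' * (A - A') * B + N' * A' * (B - B') := by noncomm_ring
  rw [← hA, ← hA', ← hB, ← hB', ← hd, h0]
  have e1 : ‖(N - N') * A * B‖ ≤ ((2 * κ) * (2 * κ * ρ * d) * (2 * κ)) * (1 / 2) * (κ * 4 * κ) :=
    (rg_tri _ _ _).trans (by gcongr)
  have e2 : ‖N' * (A - A') * B‖ ≤ (2 * κ) * (2 * κ * ρ * d) * (κ * 4 * κ) :=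
    (rg_tri _ _ _).trans (by gcongr)
  have e3 : ‖N' * A' * (B - B')‖ ≤ (2 * κ) * (κ * ρ * κ) * (2 * κ * 4 * d) :=
    (rg_tri _ _ _).trans (by gcongr)
  have hp : κ ^ 4 ≤ κ ^ 5 := pow_le_pow_right₀ hκ1 (by norm_num)
  have hp' : κ ^ 4 * (ρ * d) ≤ κ ^ 5 * (ρ * d) :=
    mul_le_mul_of_nonneg_right hp (mul_nonneg hρ0 hd0)
  calc _ ≤ _ := norm_add₃_le
    _ ≤ ((2 * κ) * (2 * κ * ρ * d) * (2 * κ)) * (1 / 2) * (κ * 4 * κ) +
        (2 * κ) * (2 * κ * ρ * d) * (κ * 4 * κ) + (2 * κ) * (κ * ρ * κ) * (2 * κ * 4 * d) :=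
        add_le_add (add_le_add e1 e2) e3
    _ = 16 * (κ ^ 5 * (ρ * d)) + 32 * (κ ^ 4 * (ρ * d)) := by ring
    _ ≤ 16 * (κ ^ 5 * (ρ * d)) + 32 * (κ ^ 5 * (ρ * d)) := by linarith
    _ = _ := by ring

end Ring

/-- the derivative of the determinant at the identity -/
lemma det_deriv_one {m : ℕ} (M : ℂ → Matrix (Fin m) (Fin m) ℂ) (M' : Matrix (Fin m) (Fin m) ℂ)
    (s : ℂ) (h : ∀ i j, HasDerivAt (fun t => M t i j) (M' i j) s) (h1 : M s = 1) :
    HasDerivAt (fun t => (M t).det) M'.trace s := by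
  classical
  have e1 : (fun t => (M t).det) = fun t => ∑ σ : Equiv.Perm (Fin m),
      ((Equiv.Perm.sign σ : ℤ) : ℂ) * ∏ i, M t (σ i) i := by
    funext t
    exact Matrix.det_apply' _
  rw [e1]
  have e2 : M'.trace = ∑ σ : Equiv.Perm (Fin m), ((Equiv.Perm.sign σ : ℤ) : ℂ) *
      ∑ i, (∏ j ∈ Finset.univ.erase i, M s (σ j) j) • M' (σ i) i := by
    rw [Finset.sum_eq_single (1 : Equiv.Perm (Fin m))]
    · rw [Equiv.Perm.sign_one]
      simp only [Equiv.Perm.coe_one, id_eq, h1, Matrix.one_apply_eq, Finset.prod_const_one,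
        one_smul, Units.val_one, Int.cast_one, one_mul]
      rfl
    · intro σ _ hσ
      have h2 : ∀ i, ∏ j ∈ Finset.univ.erase i, M s (σ j) j = 0 := by
        intro i
        -- there is an index different from `i` moved by `σ`
        have h3 : ∃ j, j ≠ i ∧ σ j ≠ j := by
          by_contra hc
          push Not at hc
          apply hσ
          ext j
          by_cases hj : j = i
          · rw [hj]
            -- `σ i` is not a fixed point of `σ` unless equal to `i`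
            have h4 : σ i = i := by
              by_contra h5
              have h6 := hc (σ i) h5
              exact h5 (σ.injective h6)
            rw [h4]
            rfl
          · rw [hc j hj]
            rfl
        obtain ⟨j, hji, hj⟩ := h3
        refine Finset.prod_eq_zero (Finset.mem_erase.2 ⟨hji, Finset.mem_univ j⟩) ?_
        rw [h1, Matrix.one_apply_ne hj]
      simp only [h2, zero_smul, Finset.sum_const_zero, mul_zero]
    · intro h2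
      exact absurd (Finset.mem_univ _) h2
  rw [e2]
  refine HasDerivAt.fun_sum fun σ _ => ?_
  refine HasDerivAt.const_mul _ ?_
  exact HasDerivAt.fun_finsetProd fun i _ => h (σ i) i

/-- the derivative of a determinant -/
lemma det_deriv {m : ℕ} (M : ℂ → Matrix (Fin m) (Fin m) ℂ) (M' N : Matrix (Fin m) (Fin m) ℂ)
    (s : ℂ) (h : ∀ i j, HasDerivAt (fun t => M t i j) (M' i j) s) (h1 : N * M s = 1) :
    HasDerivAt (fun t => (M t).det) ((M s).det * (N * M').trace) s := by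
  have h2 : M s * N = 1 := mul_eq_one_comm.1 h1
  have h3 : HasDerivAt (fun t => (N * M t).det) (N * M').trace s := by
    refine det_deriv_one _ _ _ (fun i j => ?_) h1
    simp only [Matrix.mul_apply]
    exact HasDerivAt.fun_sum fun l _ => (h l j).const_mul _
  have h4 := h3.const_mul (M s).det
  have h5 : (fun t => (M s).det * (N * M t).det) = fun t => (M t).det := by
    funext t
    rw [← Matrix.det_mul, ← Matrix.mul_assoc, h2, Matrix.one_mul]
  rwa [h5] at h4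

end Pool.Agent.H27.L1.H16.GHK
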