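import Pool.Agent.H27.L1.H16.GHK.PH2

/-!
Row PHS of the page ghk, part 3.
-/

set_option autoImplicit false

namespace Pool.Agent.H27.L1.H16.GHK

open Matrix Pool.Agent.H27.L1.H40.GHK
open scoped Matrix.Norms.Frobenius

lemma det_near (m : ℕ) : ∃ δ : ℝ, 0 < δ ∧ ∀ A : Matrix (Fin m) (Fin m) ℂ, ‖A‖ ≤ δ →
    ‖(1 + A).det - 1‖ ≤ 1 / 2 := by
  have hc : Continuous fun A : Matrix (Fin m) (Fin m) ℂ => (1 + A).det :=
    (continuous_const.add continuous_id).matrix_det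
  have h1 := hc.continuousAt (x := (0 : Matrix (Fin m) (Fin m) ℂ))
  obtain ⟨δ, hδ, h2⟩ := Metric.continuousAt_iff.1 h1 (1 / 2) (by norm_num)
  refine ⟨δ / 2, by positivity, fun A hA => ?_⟩
  have h3 := h2 (x := A) (by rw [dist_zero_right]; linarith)
  rw [dist_eq_norm, add_zero, Matrix.det_one] at h3
  exact h3.le

lemma prj_fsq {m : ℕ} {E : Matrix (Fin m) (Fin m) ℝ} (hE : Prj E) : fsq E ≤ m := by
  have h1 : Prj (1 : Matrix (Fin m) (Fin m) ℝ) := ⟨Matrix.transpose_one, Matrix.one_mul 1⟩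
  have h2 := h1.trace_mul_le hE
  rw [Matrix.one_mul, Matrix.trace_one, Fintype.card_fin] at h2
  rw [← trace_mul_tr, hE.1, hE.2]
  exact h2

lemma sqrt_m_le (m : ℕ) : Real.sqrt (m : ℝ) ≤ m + 1 := by
  rw [Real.sqrt_le_left (by positivity)]
  nlinarith [Nat.cast_nonneg (α := ℝ) m]

lemma prj_norm {m : ℕ} {E : Matrix (Fin m) (Fin m) ℝ} (hE : Prj E) : ‖cM E‖ ≤ m + 1 := by
  rw [cM_norm]
  exact (Real.sqrt_le_sqrt (prj_fsq hE)).trans (sqrt_m_le m)

lemma one_norm (m : ℕ) : ‖(1 : Matrix (Fin m) (Fin m) ℂ)‖ ≤ m + 1 := by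
  rw [← cM_one]
  exact prj_norm ⟨Matrix.transpose_one, Matrix.one_mul 1⟩

lemma near_slit {u : ℂ} (h : ‖u - 1‖ ≤ 1 / 2) : u ∈ Complex.slitPlane := by
  left
  have h1 : |(u - 1).re| ≤ 1 / 2 := (Complex.abs_re_le_norm _).trans h
  rw [Complex.sub_re, Complex.one_re, abs_le] at h1
  linarith [h1.1]

/-- PHS -/
theorem phs (m : ℕ) : ∃ r0 C : ℝ, 0 < r0 ∧ 0 < C ∧ ∀ r : ℝ, 0 < r → r ≤ r0 →
    ∀ z : Matrix (Fin m) (Fin m) ℝ, fsq (z - 1) ≤ r ^ 2 → ∀ (a b : Fin m) (s : ℂ), ‖s‖ ≤ 2 * r →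
    (∀ E, Prj E → ‖us E z a b s - 1‖ ≤ 1 / 2 ∧ DifferentiableAt ℂ (us E z a b) s) ∧
    ∀ E E', Prj E → Prj E' → ∃ d : ℂ,
      HasDerivAt (fun t => Complex.log (us E z a b t) - Complex.log (us E' z a b t)) d s ∧
      ‖d - 2 * (((E - E') a b : ℝ) : ℂ)‖ ≤ C * r * Real.sqrt (fsq (E - E')) := by
  obtain ⟨δ, hδ, hdet⟩ := det_near m
  obtain ⟨κ, hκ⟩ : ∃ κ : ℝ, κ = (m : ℝ) + 1 := ⟨_, rfl⟩
  have hm0 : (0 : ℝ) ≤ m := Nat.cast_nonneg m
  have hκ1 : 1 ≤ κ := by rw [hκ]; linarith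
  have hκ0 : 0 < κ := by linarith
  obtain ⟨r0, hr0⟩ : ∃ r0 : ℝ, r0 = min (1 / 4) (min (δ / (9 * κ * κ)) (1 / (18 * κ * κ))) :=
    ⟨_, rfl⟩
  have hr0pos : 0 < r0 := by
    rw [hr0]
    refine lt_min (by norm_num) (lt_min ?_ ?_)
    · positivity
    · positivity
  refine ⟨r0, m * 6 + m * (48 * κ ^ 5 * 9) + 1, hr0pos, by positivity, ?_⟩
  intro r hr hrr z hz a b s hs
  have hr4 : r ≤ 1 / 4 := hrr.trans (by rw [hr0]; exact min_le_left _ _)
  have hrδ : κ * (9 * r) * κ ≤ δ := by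
    have h1 : r ≤ δ / (9 * κ * κ) :=
      hrr.trans (by rw [hr0]; exact (min_le_right _ _).trans (min_le_left _ _))
    rw [le_div_iff₀ (by positivity)] at h1
    linarith [mul_comm r (9 * κ * κ)]
  have hrh : κ * κ * (9 * r) ≤ 1 / 2 := by
    have h1 : r ≤ 1 / (18 * κ * κ) :=
      hrr.trans (by rw [hr0]; exact (min_le_right _ _).trans (min_le_right _ _))
    rw [le_div_iff₀ (by positivity)] at h1
    linarith [mul_comm r (18 * κ * κ)]
  have hW : ‖Ws z a b s‖ ≤ 9 * r := Ws_norm z a b s hr hr4 hz hs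
  have hW' : ‖Ws' z a b s‖ ≤ 4 := Ws'_norm z a b s hr hr4 hz hs
  have hne : ∀ E, Prj E → ‖us E z a b s - 1‖ ≤ 1 / 2 := by
    intro E hE
    refine hdet _ ?_
    have hEn : ‖cM E‖ ≤ κ := by rw [hκ]; exact prj_norm hE
    refine (rg_tri _ _ _).trans (le_trans ?_ hrδ)
    gcongr
  have hN : ∀ E, Prj E → ∃ N, N * (1 + cM E * Ws z a b s * cM E) = 1 ∧
      (1 + cM E * Ws z a b s * cM E) * N = 1 := by
    intro E hE
    have h1 := near_slit (hne E hE)
    have h2 : IsUnit (1 + cM E * Ws z a b s * cM E).det :=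
      isUnit_iff_ne_zero.2 (Complex.slitPlane_ne_zero h1)
    exact ⟨(1 + cM E * Ws z a b s * cM E)⁻¹, Matrix.nonsing_inv_mul _ h2,
      Matrix.mul_nonsing_inv _ h2⟩
  have hdu : ∀ E N, Prj E → N * (1 + cM E * Ws z a b s * cM E) = 1 →
      HasDerivAt (fun t => Complex.log (us E z a b t))
        (N * (cM E * Ws' z a b s * cM E)).trace s := by
    intro E N hE hN
    have h1 := near_slit (hne E hE)
    have h2 := (us_deriv E z a b s N hN).clog h1
    have h3 : us E z a b s * (N * (cM E * Ws' z a b s * cM E)).trace / us E z a b s =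
        (N * (cM E * Ws' z a b s * cM E)).trace := by
      rw [mul_div_right_comm, div_self (Complex.slitPlane_ne_zero h1), one_mul]
    rwa [h3] at h2
  refine ⟨fun E hE => ⟨hne E hE, ?_⟩, ?_⟩
  · obtain ⟨N, hN1, -⟩ := hN E hE
    exact (us_deriv E z a b s N hN1).differentiableAt
  intro E E' hE hE'
  obtain ⟨N, hN1, -⟩ := hN E hE
  obtain ⟨N', hN1', hN2'⟩ := hN E' hE'
  refine ⟨_, (hdu E N hE hN1).sub (hdu E' N' hE' hN1'), ?_⟩
  have hEn : ‖cM E‖ ≤ κ := by rw [hκ]; exact prj_norm hE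
  have hEn' : ‖cM E'‖ ≤ κ := by rw [hκ]; exact prj_norm hE'
  have h1n : ‖(1 : Matrix (Fin m) (Fin m) ℂ)‖ ≤ κ := by rw [hκ]; exact one_norm m
  have hmain := rg_main (E := cM E) (E' := cM E') (W := Ws z a b s) (W' := Ws' z a b s)
    (N := N) (N' := N') hκ1 h1n hEn hEn' hW hW' hrh hN1 hN1' hN2'
  have hdd : ‖cM E - cM E'‖ = Real.sqrt (fsq (E - E')) := by rw [← cM_sub, cM_norm]
  rw [hdd] at hmain
  obtain ⟨W', hWW⟩ : ∃ W', W' = Ws' z a b s := ⟨_, rfl⟩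
  obtain ⟨W, hWW0⟩ : ∃ W, W = Ws z a b s := ⟨_, rfl⟩
  have hsub := Ws'_sub z a b s hr hz hs
  rw [← hWW] at hmain hsub ⊢
  rw [← hWW0] at hmain hN1 hN1'
  have htr : ∀ (F P : Matrix (Fin m) (Fin m) ℂ), F * F = F → P * (1 + F * W * F) = 1 →
      (P * (F * W' * F)).trace = (F * W').trace - (P * (F * W * F) * (F * W' * F)).trace := by
    intro F P hF hP
    have e0 : P = 1 - P * (F * W * F) := by
      rw [← hP]
      noncomm_ring
    have e1 : P * (F * W' * F) = F * W' * F - P * (F * W * F) * (F * W' * F) := by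
      calc P * (F * W' * F) = (1 - P * (F * W * F)) * (F * W' * F) := by rw [← e0]
        _ = _ := by rw [Matrix.sub_mul, Matrix.one_mul]
    rw [e1, Matrix.trace_sub]
    have e2 : (F * W' * F).trace = (F * W').trace := by
      rw [Matrix.trace_mul_comm, ← Matrix.mul_assoc, hF]
    rw [e2]
  have hF : cM E * cM E = cM E := by rw [← cM_mul, hE.2]
  have hF' : cM E' * cM E' = cM E' := by rw [← cM_mul, hE'.2]
  rw [htr _ _ hF hN1, htr _ _ hF' hN1']
  obtain ⟨X, hX⟩ : ∃ X, X = cM E - cM E' := ⟨_, rfl⟩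
  have hXn : ‖X‖ = Real.sqrt (fsq (E - E')) := by rw [hX]; exact hdd
  have hXab : X a b = (((E - E') a b : ℝ) : ℂ) := by
    rw [hX, ← cM_sub]
    rfl
  have hXba : X b a = (((E - E') a b : ℝ) : ℂ) := by
    rw [hX, ← cM_sub]
    have : (E - E') b a = (E - E') a b := by
      have h1 : (E - E')ᵀ = E - E' := by rw [Matrix.transpose_sub, hE.1, hE'.1]
      calc (E - E') b a = (E - E')ᵀ a b := rfl
        _ = (E - E') a b := by rw [h1]
    show (((E - E') b a : ℝ) : ℂ) = _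
    rw [this]
  have hlin : (cM E * W').trace - (cM E' * W').trace = 2 * (((E - E') a b : ℝ) : ℂ) +
      (X * (W' - (cM (eab b a) + cM (eab a b)))).trace := by
    have e1 : (X * (cM (eab b a) + cM (eab a b))).trace = 2 * (((E - E') a b : ℝ) : ℂ) := by
      rw [Matrix.mul_add, Matrix.trace_add, tr_eab, tr_eab, hXab, hXba]
      ring
    rw [← e1, ← Matrix.trace_add, ← Matrix.mul_add, ← Matrix.trace_sub, ← Matrix.sub_mul, ← hX]
    congr 2
    abel
  have hfin : (cM E * W').trace - (N * (cM E * W * cM E) * (cM E * W' * cM E)).trace -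
      ((cM E' * W').trace - (N' * (cM E' * W * cM E') * (cM E' * W' * cM E')).trace) -
      2 * (((E - E') a b : ℝ) : ℂ) = (X * (W' - (cM (eab b a) + cM (eab a b)))).trace -
      (N * (cM E * W * cM E) * (cM E * W' * cM E) -
        N' * (cM E' * W * cM E') * (cM E' * W' * cM E')).trace := by
    rw [Matrix.trace_sub]
    linear_combination hlin
  rw [hfin]
  obtain ⟨dd, hdd2⟩ : ∃ dd : ℝ, dd = Real.sqrt (fsq (E - E')) := ⟨_, rfl⟩
  rw [← hdd2] at hmain hXn ⊢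
  have hdd0 : 0 ≤ dd := by rw [hdd2]; exact Real.sqrt_nonneg _
  have f1 : ‖(X * (W' - (cM (eab b a) + cM (eab a b)))).trace‖ ≤ m * (dd * (6 * r)) := by
    refine (trace_norm _).trans (mul_le_mul_of_nonneg_left ?_ hm0)
    refine (norm_mul_le _ _).trans ?_
    rw [hXn]
    exact mul_le_mul_of_nonneg_left hsub hdd0
  have f2 : ‖(N * (cM E * W * cM E) * (cM E * W' * cM E) -
        N' * (cM E' * W * cM E') * (cM E' * W' * cM E')).trace‖ ≤
        m * (48 * κ ^ 5 * (9 * r) * dd) :=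
    (trace_norm _).trans (mul_le_mul_of_nonneg_left hmain hm0)
  have hrd : 0 ≤ r * dd := mul_nonneg hr.le hdd0
  calc _ ≤ _ := norm_sub_le _ _
    _ ≤ m * (dd * (6 * r)) + m * (48 * κ ^ 5 * (9 * r) * dd) := add_le_add f1 f2
    _ ≤ m * (dd * (6 * r)) + m * (48 * κ ^ 5 * (9 * r) * dd) + r * dd := by linarith
    _ = _ := by ring

end Pool.Agent.H27.L1.H16.GHK
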